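import Pool.Agent.H894R3.SB.Main
import Pool.Agent.H894R3.SB.Conv_helper377
import Pool.Agent.H894R3.SB.Pack_helper924
import Pool.Agent.H894R3.SB.Pairs_helper643
import Pool.Agent.H894R3.SB.Upper_helper583
import Pool.Agent.H894R3.SB.Count_helper391
import Pool.Agent.H894R3.SB.Abel_helper343

set_option autoImplicit false

/-!
# Strong `B_h` sets with `h` even have lower density zero at the natural scale

For `0 ≤ α < 1`, `h ≥ 2` even and every `α`-strong `B_h` set `S` one has
`liminf S(n) / n ^ ((1 - α) / h) = 0`.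
-/

namespace Pool.Agent.Results.MP_1d2509_nt.EvenOrder

open Pool.Agent.H894R3.SB

theorem result (α : ℝ) (hα : 0 ≤ α) (hα1 : α < 1) (h : ℕ) (hh : 1 ≤ h) (he : Even h) (S : Set ℕ)
    (hS : StrongBh α h S) :
    Filter.liminf (fun n : ℕ => (cnt S n : ℝ) / (n : ℝ) ^ ((1 - α) / (h : ℝ))) Filter.atTop =
      0 :=
  final taskConv taskPack taskPairs taskUpper taskCount AbelH343.taskAbel α hα hα1 h hh he S hS

end Pool.Agent.Results.MP_1d2509_nt.EvenOrder
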